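import Pool.Agent.H55.BQ.LBG

set_option autoImplicit false

open Finset Pool.Agent.H55.BP Pool.Agent.H55.BQ

namespace Pool.Agent.Results.MP_bacf0e_co.LowerBound

open Classical in
/-- Every biplanar drawing of a bipartite graph with `n ≥ 3` white vertices and black degrees
`d_j` has at least `2 * tt (2 * n - 4) (S / 2)` crossings, `S` the sum of the numbers
`max (d_j - 4) 0`. -/
theorem result : ∀ (n m : ℕ) (G : SimpleGraph (Fin n ⊕ Fin m)) (B : Biplanar G), 3 ≤ n →
    G ≤ K n m → 2 * tt (2 * n - 4)
      ((∑ j : Fin m, ((univ.filter fun i : Fin n => G.Adj (Sum.inr j) (Sum.inl i)).card - 4)) / 2) ≤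
      B.crossings :=
  fun n m G B hn hG => lbg n m G B hn hG

end Pool.Agent.Results.MP_bacf0e_co.LowerBound
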