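import Pool.Agent.H55.BQ.FIN2

set_option autoImplicit false

open Pool.Agent.H55.BP Pool.Agent.H55.BQ

namespace Pool.Agent.Results.MP_bacf0e_co.MinAtMostEight

/-- If `n m` is even and `min n m ≤ 8` then the complete bipartite graph `K_{n,m}` has a biplanar
drawing which is both optimal and self-complementary; with `a = min n m` and `b = max n m` its number
of crossings, the biplanar crossing number of `K_{n,m}`, is `2 * tt (2 * a - 4) (b * (a - 4) / 2)`,
which is `0` for `a ≤ 4`. -/
theorem result : ∀ n m : ℕ, 1 ≤ n → 1 ≤ m → Even (n * m) → min n m ≤ 8 →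
    ∃ B : Biplanar (K n m), B.Optimal ∧ B.SelfComplementary ∧
      B.crossings = 2 * tt (2 * min n m - 4) (max n m * (min n m - 4) / 2) :=
  fun n m hn hm h h8 => main_val n m hn hm h8 h

end Pool.Agent.Results.MP_bacf0e_co.MinAtMostEight
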